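import Mathlib

/-! Lüroth map: inverse branches and coding. -/

namespace R204.Lur

open Set Filter Topology

/-- The Lüroth map: `n(n+1)x - n` with `n = ⌊1/x⌋` (so `0 ↦ 0`). -/
noncomputable def Lu (x : ℝ) : ℝ := (⌊1 / x⌋₊ : ℝ) * (⌊1 / x⌋₊ + 1) * x - ⌊1 / x⌋₊

/-- inverse branches (`n` = digit minus one) -/
noncomputable def G (n : ℕ) (t : ℝ) : ℝ := (t + n) / (n * (n + 1))

theorem Lu_zero : Lu 0 = 0 := by simp [Lu]

theorem Lu_spec {n : ℕ} (hn : 1 ≤ n) {x : ℝ} (hx : x ∈ Ioc (1 / ((n : ℝ) + 1)) (1 / n)) :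
    Lu x = n * (n + 1) * x - n := by
  have hn' : (0 : ℝ) < n := by exact_mod_cast hn
  have hx0 : 0 < x := lt_trans (by positivity) hx.1
  have : ⌊1 / x⌋₊ = n := by
    rw [Nat.floor_eq_iff (by positivity)]
    constructor
    · rw [le_div_iff₀ hx0]
      have := hx.2
      rw [le_div_iff₀ hn'] at this
      linarith
    · rw [div_lt_iff₀ hx0]
      have := hx.1
      rw [div_lt_iff₀ (by positivity)] at this
      linarith
  unfold Lu
  rw [this]

theorem G_mem {n : ℕ} (hn : 1 ≤ n) {t : ℝ} (ht : t ∈ Ioc (0 : ℝ) 1) :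
    G n t ∈ Ioc (1 / ((n : ℝ) + 1)) (1 / n) := by
  have hn' : (0 : ℝ) < n := by exact_mod_cast hn
  unfold G
  constructor
  · rw [div_lt_div_iff₀ (by positivity) (by positivity)]
    nlinarith [mul_pos ht.1 (by positivity : (0 : ℝ) < (n : ℝ) + 1)]
  · rw [div_le_div_iff₀ (by positivity) (by positivity)]
    nlinarith [ht.2]

theorem Lu_G {n : ℕ} (hn : 1 ≤ n) {t : ℝ} (ht : t ∈ Ioc (0 : ℝ) 1) : Lu (G n t) = t := by
  have hn' : (0 : ℝ) < n := by exact_mod_cast hn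
  rw [Lu_spec hn (G_mem hn ht)]
  unfold G
  field_simp
  ring

theorem G_Ioc {n : ℕ} (hn : 1 ≤ n) {t : ℝ} (ht : t ∈ Ioc (0 : ℝ) 1) : G n t ∈ Ioc (0 : ℝ) 1 := by
  have hn' : (1 : ℝ) ≤ n := by exact_mod_cast hn
  have h := G_mem hn ht
  refine ⟨lt_trans (by positivity) h.1, h.2.trans ?_⟩
  rw [div_le_one (by linarith)]
  exact hn'

theorem exists_G {x : ℝ} (hx : x ∈ Ioc (0 : ℝ) 1) :
    ∃ n : ℕ, 1 ≤ n ∧ x ∈ Ioc (1 / ((n : ℝ) + 1)) (1 / n) ∧ Lu x ∈ Ioc (0 : ℝ) 1 ∧ x = G n (Lu x) := by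
  have h1 : 1 ≤ 1 / x := by rw [le_div_iff₀ hx.1]; linarith [hx.2]
  have hn : 1 ≤ ⌊1 / x⌋₊ := Nat.le_floor (by exact_mod_cast h1)
  have hx' : x ∈ Ioc (1 / ((⌊1 / x⌋₊ : ℝ) + 1)) (1 / ⌊1 / x⌋₊) := by
    have hn' : (0 : ℝ) < ⌊1 / x⌋₊ := by exact_mod_cast hn
    constructor
    · rw [div_lt_iff₀ (by positivity)]
      have := Nat.lt_floor_add_one (1 / x)
      rw [div_lt_iff₀ hx.1] at this
      linarith
    · rw [le_div_iff₀ hn']
      have := Nat.floor_le (by positivity : 0 ≤ 1 / x)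
      rw [le_div_iff₀ hx.1] at this
      linarith
  refine ⟨⌊1 / x⌋₊, hn, hx', ?_, ?_⟩
  · rw [Lu_spec hn hx']
    have hn' : (0 : ℝ) < ⌊1 / x⌋₊ := by exact_mod_cast hn
    have h2 := hx'.1
    have h3 := hx'.2
    rw [div_lt_iff₀ (by positivity)] at h2
    rw [le_div_iff₀ hn'] at h3
    constructor <;> nlinarith
  · rw [Lu_spec hn hx']
    have hn' : (0 : ℝ) < ⌊1 / x⌋₊ := by exact_mod_cast hn
    unfold G
    field_simp
    ring

theorem Lu_mem {x : ℝ} (hx : x ∈ Ioc (0 : ℝ) 1) : Lu x ∈ Ioc (0 : ℝ) 1 := by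
  obtain ⟨n, -, -, h, -⟩ := exists_G hx
  exact h

theorem Lu_iter_mem {x : ℝ} (hx : x ∈ Ioc (0 : ℝ) 1) (n : ℕ) : Lu^[n] x ∈ Ioc (0 : ℝ) 1 := by
  induction n with
  | zero => exact hx
  | succ n ih => rw [Function.iterate_succ_apply']; exact Lu_mem ih

/-- contraction ratios -/
noncomputable def w (n : ℕ) : ℝ := 1 / ((n : ℝ) * (n + 1))

theorem w_pos {n : ℕ} (hn : 1 ≤ n) : 0 < w n := by
  have hn' : (0 : ℝ) < n := by exact_mod_cast hn
  unfold w; positivity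

theorem w_le_half {n : ℕ} (hn : 1 ≤ n) : w n ≤ 1 / 2 := by
  have hn' : (1 : ℝ) ≤ n := by exact_mod_cast hn
  unfold w
  rw [div_le_div_iff₀ (by positivity) (by norm_num)]
  nlinarith

theorem G_eq {n : ℕ} (hn : 1 ≤ n) (t : ℝ) : G n t = 1 / ((n : ℝ) + 1) + w n * t := by
  have hn' : (0 : ℝ) < n := by exact_mod_cast hn
  unfold G w
  field_simp
  ring

/-- products of contraction ratios -/
noncomputable def W (d : ℕ → ℕ) (k : ℕ) : ℝ := ∏ i ∈ Finset.range k, w (d i)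

/-- the point with digits `d` -/
noncomputable def pt (d : ℕ → ℕ) : ℝ := ∑' k, W d k / ((d k : ℝ) + 1)

variable {d d' : ℕ → ℕ}

theorem W_nonneg (hd : ∀ i, 1 ≤ d i) (k : ℕ) : 0 < W d k :=
  Finset.prod_pos fun i _ => w_pos (hd i)

theorem W_le (hd : ∀ i, 1 ≤ d i) (k : ℕ) : W d k ≤ (1 / 2) ^ k := by
  unfold W
  calc ∏ i ∈ Finset.range k, w (d i) ≤ ∏ _i ∈ Finset.range k, (1 / 2 : ℝ) :=
        Finset.prod_le_prod (fun i _ => (w_pos (hd i)).le) (fun i _ => w_le_half (hd i))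
    _ = _ := by simp

theorem W_shift (k : ℕ) : W d (k + 1) = w (d 0) * W (fun i => d (i + 1)) k := by
  unfold W
  rw [Finset.prod_range_succ', mul_comm]

theorem term_le (hd : ∀ i, 1 ≤ d i) (k : ℕ) : W d k / ((d k : ℝ) + 1) ≤ (1 / 2) ^ k := by
  refine (div_le_self (W_nonneg hd k).le ?_).trans (W_le hd k)
  have : (0 : ℝ) ≤ d k := by positivity
  linarith

theorem summable_pt (hd : ∀ i, 1 ≤ d i) : Summable fun k => W d k / ((d k : ℝ) + 1) :=
  Summable.of_nonneg_of_le (fun k => by have := W_nonneg hd k; positivity) (term_le hd)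
    (summable_geometric_of_lt_one (by norm_num) (by norm_num))

theorem partial_le (hd : ∀ i, 1 ≤ d i) (n : ℕ) :
    ∑ k ∈ Finset.range n, W d k / ((d k : ℝ) + 1) + W d n ≤ 1 := by
  induction n with
  | zero => simp [W]
  | succ n ih =>
    rw [Finset.sum_range_succ]
    have h1 : W d (n + 1) = W d n * w (d n) := by unfold W; rw [Finset.prod_range_succ]
    have hn' : (1 : ℝ) ≤ d n := by exact_mod_cast hd n
    have h2 : W d n / ((d n : ℝ) + 1) + W d n * w (d n) = W d n / d n := by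
      unfold w; field_simp
    have h3 : W d n / d n ≤ W d n := div_le_self (W_nonneg hd n).le hn'
    rw [h1]; linarith

theorem pt_rec (hd : ∀ i, 1 ≤ d i) : pt d = G (d 0) (pt fun i => d (i + 1)) := by
  unfold pt
  rw [(summable_pt hd).tsum_eq_zero_add, G_eq (hd 0), ← tsum_mul_left]
  have h0 : W d 0 = 1 := by simp [W]
  rw [h0]
  congr 2
  funext k
  rw [W_shift]
  ring

theorem pt_le_one (hd : ∀ i, 1 ≤ d i) : pt d ≤ 1 := by
  refine Real.tsum_le_of_sum_range_le (fun k => by have := W_nonneg hd k; positivity) fun n => ?_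
  have := partial_le hd n
  have := W_nonneg hd n
  linarith

theorem pt_nonneg (hd : ∀ i, 1 ≤ d i) : 0 ≤ pt d :=
  tsum_nonneg fun k => by have := W_nonneg hd k; positivity

theorem pt_mem (hd : ∀ i, 1 ≤ d i) : pt d ∈ Ioc (0 : ℝ) 1 := by
  refine ⟨?_, pt_le_one hd⟩
  rw [pt_rec hd, G_eq (hd 0)]
  have h1 := pt_nonneg (d := fun i => d (i + 1)) (fun i => hd _)
  have h2 := w_pos (hd 0)
  positivity

theorem Lu_pt (hd : ∀ i, 1 ≤ d i) : Lu (pt d) = pt fun i => d (i + 1) := by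
  rw [pt_rec hd, Lu_G (hd 0) (pt_mem fun i => hd _)]

theorem Lu_iter_pt (hd : ∀ i, 1 ≤ d i) (n : ℕ) : Lu^[n] (pt d) = pt fun i => d (i + n) := by
  induction n with
  | zero => rfl
  | succ n ih =>
    rw [Function.iterate_succ_apply', ih, Lu_pt (fun i => hd _)]
    congr 1
    funext i
    congr 1
    omega

theorem pt_sub (hd : ∀ i, 1 ≤ d i) (hd' : ∀ i, 1 ≤ d' i) (n : ℕ) (h : ∀ i < n, d i = d' i) :
    pt d - pt d' = W d n * ((pt fun i => d (i + n)) - pt fun i => d' (i + n)) := by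
  induction n generalizing d d' with
  | zero => simp [W]
  | succ n ih =>
    rw [pt_rec hd, pt_rec hd', G_eq (hd 0), G_eq (hd' 0), ← h 0 (by omega), W_shift]
    have := ih (d := fun i => d (i + 1)) (d' := fun i => d' (i + 1)) (fun i => hd _) (fun i => hd' _)
      (fun i hi => h (i + 1) (by omega))
    have e1 : (fun i => d (i + n + 1)) = fun i => d (i + (n + 1)) := rfl
    have e2 : (fun i => d' (i + n + 1)) = fun i => d' (i + (n + 1)) := rfl
    simp only [e1, e2] at this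
    linear_combination (w (d 0)) * this

end R204.Lur
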