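import Mathlib
import Pool.Agent.R204.Lur.Basic

/-! Upper bound for the dimension of asymptotic sets of the Lüroth map. -/

namespace R204.Lur

open Set Filter Topology MeasureTheory Metric
open scoped ENNReal NNReal

/-- `s`-dimensional Hausdorff content -/
noncomputable def C (s : ℝ) : OuterMeasure ℝ := OuterMeasure.boundedBy fun t => ediam t ^ s

theorem C_le (s : ℝ) (t : Set ℝ) : C s t ≤ ediam t ^ s := OuterMeasure.boundedBy_le t

theorem C_image {s : ℝ} (hs : 0 ≤ s) {r : ℝ≥0} {f : ℝ → ℝ} (hf : LipschitzWith r f) (F : Set ℝ) :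
    C s (f '' F) ≤ (r : ℝ≥0∞) ^ s * C s F := by
  have h1 : OuterMeasure.comap f (C s) ≤ ((r : ℝ≥0∞) ^ s) • C s := by
    have hne : (r : ℝ≥0∞) ^ s ≠ ∞ := ENNReal.rpow_ne_top_of_nonneg hs ENNReal.coe_ne_top
    unfold C
    rw [OuterMeasure.smul_boundedBy hne, OuterMeasure.le_boundedBy]
    intro t
    rw [OuterMeasure.comap_apply]
    refine (OuterMeasure.boundedBy_le _).trans ?_
    show ediam (f '' t) ^ s ≤ (r : ℝ≥0∞) ^ s * ediam t ^ s
    rw [← ENNReal.mul_rpow_of_nonneg _ _ hs]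
    exact ENNReal.rpow_le_rpow (hf.ediam_image_le t) hs
  have := h1 F
  rwa [OuterMeasure.comap_apply] at this

theorem hausdorff_zero {s : ℝ} (hs : 0 < s) {F : Set ℝ} (h : C s F = 0) : μH[s] F = 0 := by
  rw [Measure.hausdorffMeasure_apply]
  simp only [ENNReal.iSup_eq_zero]
  intro r hr
  refine le_antisymm (ENNReal.le_of_forall_pos_le_add fun ε hε _ => ?_) bot_le
  rw [zero_add]
  have hpos : 0 < min (ε : ℝ≥0∞) (r ^ s) :=
    lt_min (ENNReal.coe_pos.2 hε) (ENNReal.rpow_pos_of_nonneg hr hs.le)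
  rw [← h] at hpos
  unfold C at hpos
  rw [OuterMeasure.boundedBy_apply] at hpos
  obtain ⟨t, ht⟩ := iInf_lt_iff.1 hpos
  obtain ⟨hF, hsum⟩ := iInf_lt_iff.1 ht
  refine iInf_le_of_le t (iInf_le_of_le hF (iInf_le_of_le ?_ ?_))
  · intro n
    rcases (t n).eq_empty_or_nonempty with he | hne
    · rw [he]; simp
    · have h1 : ediam (t n) ^ s ≤ r ^ s := by
        calc ediam (t n) ^ s = ⨆ _ : (t n).Nonempty, ediam (t n) ^ s := by simp [hne]
          _ ≤ ∑' n, ⨆ _ : (t n).Nonempty, ediam (t n) ^ s := ENNReal.le_tsum n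
          _ ≤ r ^ s := (hsum.trans_le (min_le_right _ _)).le
      exact (ENNReal.rpow_le_rpow_iff hs).1 h1
  · exact (hsum.trans_le (min_le_left _ _)).le

/-- points whose digits are two away from the special times -/
def FJ (τ : ℕ → ℕ) (J : ℕ) : Set ℝ :=
  {z | z ∈ Ioc (0 : ℝ) 1 ∧ ∀ i, i + τ J ∉ range τ → 1 / 2 < Lu^[i] z}

theorem digit_one {z : ℝ} (hz : z ∈ Ioc (0 : ℝ) 1) (h : 1 / 2 < z) : z = G 1 (Lu z) := by
  obtain ⟨n, hn, hx, -, he⟩ := exists_G hz
  have : n = 1 := by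
    by_contra hne
    have hn2 : (2 : ℝ) ≤ n := by exact_mod_cast (by omega : 2 ≤ n)
    have : z ≤ 1 / 2 := hx.2.trans (by
      apply one_div_le_one_div_of_le (by norm_num) hn2)
    linarith
  rw [this] at he
  exact he

theorem chain {g : ℕ} {z : ℝ} (hz : z ∈ Ioc (0 : ℝ) 1) (h : ∀ i < g, 1 / 2 < Lu^[i] z) :
    z = (G 1)^[g] (Lu^[g] z) := by
  induction g generalizing z with
  | zero => rfl
  | succ g ih =>
    rw [Function.iterate_succ_apply', Function.iterate_succ_apply]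
    rw [← ih (Lu_mem hz) (fun i hi => by
      have := h (i + 1) (by omega)
      rwa [Function.iterate_succ_apply] at this)]
    exact digit_one hz (h 0 (by omega))

theorem FJ_sub {τ : ℕ → ℕ} (hτ : StrictMono τ) (J g : ℕ) (hg : τ (J + 1) = τ J + g + 1) (M : ℕ) :
    FJ τ J ⊆ Icc (0 : ℝ) (1 / ((M : ℝ) + 1)) ∪
      ⋃ e ∈ Finset.range M, G (e + 1) '' ((G 1)^[g] '' FJ τ (J + 1)) := by
  rintro z ⟨hz, hi⟩
  obtain ⟨n, hn, hx, hL, he⟩ := exists_G hz
  by_cases hM : M < n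
  · left
    refine ⟨hz.1.le, hx.2.trans ?_⟩
    have : (M : ℝ) + 1 ≤ n := by exact_mod_cast hM
    exact one_div_le_one_div_of_le (by positivity) this
  · right
    simp only [mem_iUnion, Finset.mem_range]
    refine ⟨n - 1, by omega, Lu z, ⟨Lu^[g + 1] z, ⟨Lu_iter_mem hz _, ?_⟩, ?_⟩, ?_⟩
    · intro i hir
      rw [← Function.iterate_add_apply]
      apply hi
      rwa [show i + (g + 1) + τ J = i + τ (J + 1) by omega]
    · rw [Function.iterate_succ_apply]
      refine (chain hL fun i hig => ?_).symm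
      rw [← Function.iterate_succ_apply]
      apply hi
      rintro ⟨k, hk⟩
      have h1 : J < k := hτ.lt_iff_lt.1 (by omega)
      have h2 : k < J + 1 := hτ.lt_iff_lt.1 (by omega)
      omega
    · rw [Nat.sub_add_cancel hn]
      exact he.symm

theorem lip_G {n : ℕ} (hn : 1 ≤ n) : LipschitzWith (w n).toNNReal (G n) := by
  apply LipschitzWith.of_dist_le_mul
  intro x y
  rw [Real.dist_eq, Real.dist_eq, G_eq hn, G_eq hn, Real.coe_toNNReal _ (w_pos hn).le]
  rw [show 1 / ((n : ℝ) + 1) + w n * x - (1 / ((n : ℝ) + 1) + w n * y) = w n * (x - y) by ring,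
    abs_mul, abs_of_pos (w_pos hn)]

theorem w_one : w 1 = 1 / 2 := by unfold w; norm_num

theorem lip_iter (g : ℕ) : LipschitzWith ((1 / 2 : ℝ≥0) ^ g) (G 1)^[g] := by
  have h := lip_G (n := 1) le_rfl
  have e : (w 1).toNNReal = 1 / 2 := by
    rw [w_one]
    ext; simp
  rw [e] at h
  exact h.iterate g

theorem sum_rpow_le {a : ℝ} (ha : 0 < a) (ha1 : a < 1) (M : ℕ) :
    ∑ k ∈ Finset.range M, ((k : ℝ) + 1) ^ (-a) ≤ (M : ℝ) ^ (1 - a) / (1 - a) := by
  induction M with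
  | zero =>
    simp only [Finset.range_zero, Finset.sum_empty, Nat.cast_zero]
    rw [Real.zero_rpow (by linarith)]
    simp
  | succ M ih =>
    rw [Finset.sum_range_succ]
    have hM : (0 : ℝ) < (M : ℝ) + 1 := by positivity
    have h1a : 0 < 1 - a := by linarith
    have key : (M : ℝ) ^ (1 - a) ≤ ((M : ℝ) + 1) ^ (1 - a) * (1 - (1 - a) / ((M : ℝ) + 1)) := by
      have e1 : (M : ℝ) = ((M : ℝ) + 1) * (1 + (-1 / ((M : ℝ) + 1))) := by
        field_simp; ring
      have h0 : -1 ≤ -1 / ((M : ℝ) + 1) := by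
        rw [le_div_iff₀ hM]
        have : (0 : ℝ) ≤ M := by positivity
        linarith
      calc (M : ℝ) ^ (1 - a) = (((M : ℝ) + 1) * (1 + (-1 / ((M : ℝ) + 1)))) ^ (1 - a) := by rw [← e1]
        _ = ((M : ℝ) + 1) ^ (1 - a) * (1 + (-1 / ((M : ℝ) + 1))) ^ (1 - a) := by
          rw [Real.mul_rpow hM.le (by linarith)]
        _ ≤ ((M : ℝ) + 1) ^ (1 - a) * (1 + (1 - a) * (-1 / ((M : ℝ) + 1))) := by
          apply mul_le_mul_of_nonneg_left _ (by positivity)
          exact rpow_one_add_le_one_add_mul_self h0 h1a.le (by linarith)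
        _ = _ := by ring
    have e2 : ((M : ℝ) + 1) ^ (-a) = ((M : ℝ) + 1) ^ (1 - a) / ((M : ℝ) + 1) := by
      rw [show -a = (1 - a) - 1 by ring, Real.rpow_sub hM, Real.rpow_one]
    push_cast
    rw [e2]
    calc ∑ k ∈ Finset.range M, ((k : ℝ) + 1) ^ (-a) + ((M : ℝ) + 1) ^ (1 - a) / ((M : ℝ) + 1)
        ≤ (M : ℝ) ^ (1 - a) / (1 - a) + ((M : ℝ) + 1) ^ (1 - a) / ((M : ℝ) + 1) := by linarith
      _ ≤ (((M : ℝ) + 1) ^ (1 - a) * (1 - (1 - a) / ((M : ℝ) + 1))) / (1 - a) +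
          ((M : ℝ) + 1) ^ (1 - a) / ((M : ℝ) + 1) := by
          have := div_le_div_of_nonneg_right key h1a.le
          linarith
      _ = ((M : ℝ) + 1) ^ (1 - a) / (1 - a) := by field_simp; ring

theorem C_le_one {s : ℝ} (hs : 0 < s) (τ : ℕ → ℕ) (J : ℕ) : C s (FJ τ J) ≤ 1 := by
  refine (measure_mono (t := Icc (0 : ℝ) 1) fun z hz => ⟨hz.1.1.le, hz.1.2⟩).trans ?_
  refine (C_le s _).trans ?_
  rw [Real.ediam_Icc]
  simp

/-- the content as a real number -/
noncomputable def c (s : ℝ) (τ : ℕ → ℕ) (J : ℕ) : ℝ := (C s (FJ τ J)).toReal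

theorem ofReal_c {s : ℝ} (hs : 0 < s) (τ : ℕ → ℕ) (J : ℕ) :
    ENNReal.ofReal (c s τ J) = C s (FJ τ J) :=
  ENNReal.ofReal_toReal ((C_le_one hs τ J).trans_lt ENNReal.one_lt_top).ne

theorem c_nonneg (s : ℝ) (τ : ℕ → ℕ) (J : ℕ) : 0 ≤ c s τ J := ENNReal.toReal_nonneg

theorem c_le_one {s : ℝ} (hs : 0 < s) (τ : ℕ → ℕ) (J : ℕ) : c s τ J ≤ 1 := by
  have := ENNReal.toReal_mono ENNReal.one_ne_top (C_le_one hs τ J)
  simpa [c] using this

theorem c_rec {s : ℝ} (hs : 0 < s) {τ : ℕ → ℕ} (hτ : StrictMono τ) (J g : ℕ)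
    (hg : τ (J + 1) = τ J + g + 1) (M : ℕ) :
    c s τ J ≤ (1 / ((M : ℝ) + 1)) ^ s +
      (∑ e ∈ Finset.range M, (w (e + 1)) ^ s) * (((1 / 2 : ℝ) ^ g) ^ s * c s τ (J + 1)) := by
  have hwn : ∀ e : ℕ, 0 ≤ (w (e + 1)) ^ s := fun e => Real.rpow_nonneg (w_pos (by omega)).le _
  have hrhs : 0 ≤ (∑ e ∈ Finset.range M, (w (e + 1)) ^ s) * (((1 / 2 : ℝ) ^ g) ^ s * c s τ (J + 1)) :=
    mul_nonneg (Finset.sum_nonneg fun e _ => hwn e) (mul_nonneg (by positivity) (c_nonneg _ _ _))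
  rw [← ENNReal.ofReal_le_ofReal_iff (by positivity), ofReal_c hs,
    ENNReal.ofReal_add (by positivity) hrhs]
  refine (measure_mono (FJ_sub hτ J g hg M)).trans ((measure_union_le _ _).trans ?_)
  gcongr
  · refine (C_le s _).trans ?_
    rw [Real.ediam_Icc, sub_zero, ENNReal.ofReal_rpow_of_pos (by positivity)]
  · refine (measure_biUnion_finset_le _ _).trans ?_
    rw [Finset.sum_mul, ENNReal.ofReal_sum_of_nonneg (fun e _ => mul_nonneg (hwn e)
      (mul_nonneg (by positivity) (c_nonneg _ _ _)))]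
    apply Finset.sum_le_sum
    intro e _
    refine (C_image hs.le (lip_G (by omega)) _).trans ?_
    rw [ENNReal.ofReal_mul (hwn e), ENNReal.ofReal_mul (by positivity), ofReal_c hs,
      ← ENNReal.ofReal_rpow_of_pos (w_pos (by omega))]
    gcongr
    · exact le_rfl
    · refine (C_image hs.le (lip_iter g) _).trans ?_
      gcongr
      rw [← ENNReal.ofReal_rpow_of_pos (by positivity)]
      gcongr
      rw [← ENNReal.ofReal_coe_nnreal]
      push_cast
      exact le_rfl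

theorem w_rpow_le {s : ℝ} (hs : 0 < s) (e : ℕ) : (w (e + 1)) ^ s ≤ ((e : ℝ) + 1) ^ (-(2 * s)) := by
  have he : (0 : ℝ) < (e : ℝ) + 1 := by positivity
  have h1 : w (e + 1) ≤ ((e : ℝ) + 1) ^ (-2 : ℝ) := by
    unfold w
    rw [Real.rpow_neg he.le, one_div]
    push_cast
    apply inv_anti₀ (by positivity)
    rw [show (2 : ℝ) = ((2 : ℕ) : ℝ) by norm_num, Real.rpow_natCast]
    nlinarith
  calc (w (e + 1)) ^ s ≤ (((e : ℝ) + 1) ^ (-2 : ℝ)) ^ s :=
        Real.rpow_le_rpow (w_pos (by omega)).le h1 hs.le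
    _ = _ := by rw [← Real.rpow_mul he.le]; congr 1; ring

theorem c_step {s : ℝ} (hs : 0 < s) (hs2 : s < 1 / 2) {τ : ℕ → ℕ} (hτ : StrictMono τ) (J g : ℕ)
    (hg : τ (J + 1) = τ J + g + 1) {q : ℝ} (hq0 : 0 < q)
    (hq : ((1 / 2 : ℝ) ^ g) ^ s * c s τ (J + 1) ≤ q) :
    c s τ J ≤ (1 + 1 / (1 - 2 * s)) * q ^ (s / (1 - s)) := by
  have h2s : 0 < 1 - 2 * s := by linarith
  have h1s : 0 < 1 - s := by linarith
  have hB : 1 ≤ 1 + 1 / (1 - 2 * s) := by
    have : 0 < 1 / (1 - 2 * s) := by positivity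
    linarith
  rcases le_or_gt 1 q with h1 | h1
  · have : 1 ≤ q ^ (s / (1 - s)) := Real.one_le_rpow h1 (by positivity)
    calc c s τ J ≤ 1 := c_le_one hs τ J
      _ ≤ (1 + 1 / (1 - 2 * s)) * q ^ (s / (1 - s)) := by nlinarith
  · set y := q ^ (-1 / (1 - s)) with hy
    have hy1 : 1 ≤ y := by
      apply Real.one_le_rpow_of_pos_of_le_one_of_nonpos hq0 h1.le
      rw [neg_div]
      have : 0 < 1 / (1 - s) := by positivity
      linarith
    have hy0 : 0 < y := by linarith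
    set M := ⌊y⌋₊ with hM
    have hMy : (M : ℝ) ≤ y := Nat.floor_le hy0.le
    have hMy' : y < (M : ℝ) + 1 := Nat.lt_floor_add_one y
    have t1 : (1 / ((M : ℝ) + 1)) ^ s ≤ q ^ (s / (1 - s)) := by
      calc (1 / ((M : ℝ) + 1)) ^ s ≤ (1 / y) ^ s := by
            apply Real.rpow_le_rpow (by positivity) _ hs.le
            exact one_div_le_one_div_of_le hy0 hMy'.le
        _ = q ^ (s / (1 - s)) := by
            rw [hy, one_div, ← Real.rpow_neg hq0.le, ← Real.rpow_mul hq0.le]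
            congr 1
            field_simp
    have t2 : (∑ e ∈ Finset.range M, (w (e + 1)) ^ s) ≤ y ^ (1 - 2 * s) / (1 - 2 * s) := by
      calc (∑ e ∈ Finset.range M, (w (e + 1)) ^ s)
          ≤ ∑ e ∈ Finset.range M, ((e : ℝ) + 1) ^ (-(2 * s)) :=
            Finset.sum_le_sum fun e _ => w_rpow_le hs e
        _ ≤ (M : ℝ) ^ (1 - 2 * s) / (1 - 2 * s) := sum_rpow_le (by linarith) (by linarith) M
        _ ≤ _ := by
            apply div_le_div_of_nonneg_right _ h2s.le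
            exact Real.rpow_le_rpow (by positivity) hMy h2s.le
    have t3 : y ^ (1 - 2 * s) * q = q ^ (s / (1 - s)) := by
      rw [hy, ← Real.rpow_mul hq0.le]
      nth_rw 2 [← Real.rpow_one q]
      rw [← Real.rpow_add hq0]
      congr 1
      field_simp
      ring
    have hnn : 0 ≤ ((1 / 2 : ℝ) ^ g) ^ s * c s τ (J + 1) :=
      mul_nonneg (by positivity) (c_nonneg _ _ _)
    calc c s τ J ≤ (1 / ((M : ℝ) + 1)) ^ s +
      (∑ e ∈ Finset.range M, (w (e + 1)) ^ s) * (((1 / 2 : ℝ) ^ g) ^ s * c s τ (J + 1)) :=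
          c_rec hs hτ J g hg M
      _ ≤ q ^ (s / (1 - s)) + (y ^ (1 - 2 * s) / (1 - 2 * s)) * q := by
          apply add_le_add t1
          exact mul_le_mul t2 hq hnn (by positivity)
      _ = (1 + 1 / (1 - 2 * s)) * q ^ (s / (1 - s)) := by
          rw [← t3]; ring

theorem c_zero {s lam : ℝ} (hs : 0 < s) (hs2 : s < 1 / 2) (hlam : 1 < lam)
    (hsl : 1 ≤ s / (1 - s) * lam) {τ g : ℕ → ℕ} (hτ : StrictMono τ)
    (hg : ∀ J, τ (J + 1) = τ J + g J + 1) (hgl : ∀ J, (lam - 1) * lam ^ J ≤ g J) (J : ℕ) :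
    c s τ J = 0 := by
  have h1s : 0 < 1 - s := by linarith
  set θ := s / (1 - s) with hθ
  have hθ0 : 0 < θ := by positivity
  have hθ1 : θ < 1 := by rw [hθ, div_lt_one h1s]; linarith
  set B := 1 + 1 / (1 - 2 * s) with hB
  have hB1 : 1 ≤ B := by
    have : 0 < 1 / (1 - 2 * s) := by
      have : 0 < 1 - 2 * s := by linarith
      positivity
    linarith
  set B' := B ^ (1 / (1 - θ)) with hB'
  have h1θ : 0 < 1 - θ := by linarith
  have hB'1 : 1 ≤ B' := Real.one_le_rpow hB1 (by positivity)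
  have hB'0 : 0 < B' := by linarith
  have hBB : B * B' ^ θ = B' := by
    rw [hB', ← Real.rpow_mul (by linarith)]
    nth_rw 1 [← Real.rpow_one B]
    rw [← Real.rpow_add (by linarith)]
    congr 1
    field_simp
    ring
  set κ := θ * (Real.log 2 * s) * (lam - 1) with hκ
  have hlog : 0 < Real.log 2 := Real.log_pos (by norm_num)
  have hκ0 : 0 < κ := by
    have : 0 < lam - 1 := by linarith
    positivity
  have claim : ∀ K J : ℕ, c s τ J ≤ B' * Real.exp (-(κ * K * lam ^ J)) := by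
    intro K
    induction K with
    | zero =>
      intro J
      simp only [Nat.cast_zero, mul_zero, zero_mul, neg_zero, Real.exp_zero, mul_one]
      exact (c_le_one hs τ J).trans hB'1
    | succ K ih =>
      intro J
      have h2 : ((1 / 2 : ℝ) ^ g J) ^ s = Real.exp (-(Real.log 2 * s * g J)) := by
        rw [← Real.rpow_natCast, ← Real.rpow_mul (by norm_num), Real.rpow_def_of_pos (by norm_num)]
        congr 1
        rw [one_div, Real.log_inv]
        ring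
      set q := Real.exp (-(Real.log 2 * s * g J)) * (B' * Real.exp (-(κ * K * lam ^ (J + 1)))) with hq
      have hq0 : 0 < q := by positivity
      have h3 := c_step hs hs2 hτ J (g J) (hg J) hq0 (by
        rw [h2]
        exact mul_le_mul_of_nonneg_left (ih (J + 1)) (Real.exp_pos _).le)
      refine h3.trans ?_
      have h4 : q ^ θ = B' ^ θ * Real.exp (-(θ * (Real.log 2 * s * g J) + θ * (κ * K * lam ^ (J + 1)))) := by
        rw [hq, Real.mul_rpow (by positivity) (by positivity), Real.mul_rpow (by positivity) (by positivity),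
          ← Real.exp_mul, ← Real.exp_mul, mul_left_comm, ← Real.exp_add]
        congr 2
        ring
      rw [h4, ← mul_assoc, hBB]
      apply mul_le_mul_of_nonneg_left _ hB'0.le
      apply Real.exp_le_exp.2
      have h5 := hgl J
      have h6 : κ * lam ^ J ≤ θ * (Real.log 2 * s * g J) := by
        rw [hκ]
        have : 0 ≤ θ * (Real.log 2 * s) := by positivity
        nlinarith [mul_le_mul_of_nonneg_left h5 this]
      have h7 : κ * K * lam ^ J ≤ θ * (κ * K * lam ^ (J + 1)) := by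
        have : 0 ≤ κ * K * lam ^ J := by positivity
        calc κ * K * lam ^ J ≤ (θ * lam) * (κ * K * lam ^ J) := by nlinarith
          _ = _ := by rw [pow_succ]; ring
      push_cast
      nlinarith
  apply le_antisymm _ (c_nonneg _ _ _)
  have hlim : Tendsto (fun K : ℕ => B' * Real.exp (-(κ * K * lam ^ J))) atTop (𝓝 (B' * 0)) := by
    apply Tendsto.const_mul
    apply Real.tendsto_exp_atBot.comp
    apply tendsto_neg_atTop_atBot.comp
    have hl : 0 < lam ^ J := by positivity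
    apply Tendsto.atTop_mul_const hl
    exact Tendsto.const_mul_atTop hκ0 tendsto_natCast_atTop_atTop
  rw [mul_zero] at hlim
  exact ge_of_tendsto' hlim fun K => claim K J

theorem pre_zero {s : ℝ} (hs : 0 < s) (n : ℕ) : ∀ (F : Set ℝ), μH[s] F = 0 →
    μH[s] {y : ℝ | y ∈ Ioc (0 : ℝ) 1 ∧ Lu^[n] y ∈ F} = 0 := by
  induction n with
  | zero =>
    intro F hF
    exact measure_mono_null (fun y hy => hy.2) hF
  | succ n ih =>
    intro F hF
    have h1 := ih F hF
    refine measure_mono_null (t := ⋃ e : ℕ, G (e + 1) '' {y : ℝ | y ∈ Ioc (0 : ℝ) 1 ∧ Lu^[n] y ∈ F}) ?_ ?_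
    · rintro y ⟨hy, hyF⟩
      obtain ⟨m, hm, -, hL, he⟩ := exists_G hy
      refine mem_iUnion.2 ⟨m - 1, Lu y, ⟨hL, ?_⟩, ?_⟩
      · rwa [Function.iterate_succ_apply] at hyF
      · rw [Nat.sub_add_cancel hm]; exact he.symm
    · rw [measure_iUnion_null_iff]
      intro e
      have := (lip_G (n := e + 1) (by omega)).hausdorffMeasure_image_le hs.le
        {y : ℝ | y ∈ Ioc (0 : ℝ) 1 ∧ Lu^[n] y ∈ F}
      rw [h1, mul_zero] at this
      exact le_antisymm this bot_le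

/-- the asymptotic set -/
def AS (x : ℝ) : Set ℝ :=
  {y | y ∈ Icc (0 : ℝ) 1 ∧ Tendsto (fun n : ℕ => |Lu^[n] x - Lu^[n] y|) atTop (𝓝 0)}

/-- digit sequences -/
noncomputable def sq (τ D : ℕ → ℕ) : ℕ → ℕ := Function.extend τ D fun _ => 1

theorem sq_apply {τ : ℕ → ℕ} (hτ : StrictMono τ) (D : ℕ → ℕ) (j : ℕ) : sq τ D (τ j) = D j :=
  hτ.injective.extend_apply _ _ _

theorem sq_of_notMem {τ : ℕ → ℕ} (D : ℕ → ℕ) {i : ℕ} (hi : i ∉ range τ) : sq τ D i = 1 :=
  Function.extend_apply' _ _ _ (by simpa using hi)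

theorem sq_pos {τ : ℕ → ℕ} (hτ : StrictMono τ) {D : ℕ → ℕ} (hD : ∀ j, 1 ≤ D j) (i : ℕ) : 1 ≤ sq τ D i := by
  by_cases h : i ∈ range τ
  · obtain ⟨j, rfl⟩ := h
    rw [sq_apply hτ]; exact hD j
  · rw [sq_of_notMem D h]

theorem Lu_iter_at {τ : ℕ → ℕ} (hτ : StrictMono τ) {D : ℕ → ℕ} (hD : ∀ j, 1 ≤ D j) (j : ℕ) :
    Lu^[τ j] (pt (sq τ D)) ≤ 1 / D j := by
  rw [Lu_iter_pt (sq_pos hτ hD), pt_rec (fun i => sq_pos hτ hD _)]
  have h := (G_mem (n := sq τ D (0 + τ j)) (sq_pos hτ hD _)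
    (pt_mem (d := fun i => sq τ D (i + 1 + τ j)) fun i => sq_pos hτ hD _)).2
  have e : sq τ D (0 + τ j) = D j := by rw [zero_add, sq_apply hτ]
  rw [e] at h
  simp only [e]
  exact h

theorem Lu_iter_off {τ : ℕ → ℕ} (hτ : StrictMono τ) {D : ℕ → ℕ} (hD : ∀ j, 1 ≤ D j) {n : ℕ}
    (hn : n ∉ range τ) :
    Lu^[n] (pt (sq τ D)) = (1 + Lu^[n + 1] (pt (sq τ D))) / 2 := by
  rw [Lu_iter_pt (sq_pos hτ hD), Lu_iter_pt (sq_pos hτ hD), pt_rec (fun i => sq_pos hτ hD _)]
  have e : sq τ D (0 + n) = 1 := by rw [zero_add, sq_of_notMem D hn]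
  simp only [e]
  have e2 : (fun i => sq τ D (i + 1 + n)) = fun i => sq τ D (i + (n + 1)) := by
    funext i; congr 1; omega
  rw [e2]
  unfold G
  norm_num
  ring

theorem AS_sub {τ : ℕ → ℕ} (hτ : StrictMono τ) {D : ℕ → ℕ} (hD : ∀ j, 2 ≤ D j) :
    AS (pt (sq τ D)) ⊆ {0} ∪ ⋃ J, {y : ℝ | y ∈ Ioc (0 : ℝ) 1 ∧ Lu^[τ J] y ∈ FJ τ J} := by
  rintro y ⟨hy, hlim⟩
  have hD1 : ∀ j, 1 ≤ D j := fun j => le_trans (by norm_num) (hD j)
  rcases hy.1.eq_or_lt with h0 | h0
  · left; exact h0.symm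
  right
  have hy1 : y ∈ Ioc (0 : ℝ) 1 := ⟨h0, hy.2⟩
  obtain ⟨N, hN⟩ := eventually_atTop.1 (hlim.eventually (gt_mem_nhds (show (0 : ℝ) < 1 / 100 by norm_num)))
  refine mem_iUnion.2 ⟨N, hy1, Lu_iter_mem hy1 _, ?_⟩
  intro i hi
  rw [← Function.iterate_add_apply]
  set n := i + τ N with hn
  have hnN : N ≤ n := by have := hτ.id_le N; simp only [id] at this; omega
  set x := pt (sq τ D) with hx
  have hx1 : x ∈ Ioc (0 : ℝ) 1 := pt_mem (sq_pos hτ hD1)
  have a1 := hN n hnN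
  have a2 := hN (n + 1) (by omega)
  rw [abs_lt] at a1 a2
  have e1 := Lu_iter_off hτ hD1 hi
  have hxn := Lu_iter_mem hx1 (n + 1)
  by_contra hcon
  push Not at hcon
  have hyn := Lu_iter_mem hy1 n
  have h13 : Lu^[n] y ∈ Ioc (1 / (((2 : ℕ) : ℝ) + 1)) (1 / ((2 : ℕ) : ℝ)) := by
    constructor
    · push_cast
      have := hxn.1
      rw [← hx] at e1
      norm_num
      linarith [a1.2]
    · push_cast; exact hcon
  have e3 : Lu^[n + 1] y = 6 * Lu^[n] y - 2 := by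
    rw [Function.iterate_succ_apply', Lu_spec (by norm_num) h13]
    norm_num
  by_cases hr : n + 1 ∈ range τ
  · obtain ⟨j, hj⟩ := hr
    have h4 := Lu_iter_at hτ hD1 j
    rw [hj] at h4
    have h5 : 1 / (D j : ℝ) ≤ 1 / 2 := by
      apply one_div_le_one_div_of_le (by norm_num)
      exact_mod_cast hD j
    rw [← hx] at e1 h4
    linarith [a1.1, a1.2, a2.1, a2.2, hxn.1]
  · have h4 := Lu_iter_off hτ hD1 hr
    have h5 := (Lu_iter_mem hx1 (n + 1 + 1)).1
    rw [← hx] at e1 h4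
    linarith [a1.1, a1.2]

theorem upper {s lam : ℝ} (hs : 0 < s) (hs2 : s < 1 / 2) (hlam : 1 < lam)
    (hsl : 1 ≤ s / (1 - s) * lam) {τ g : ℕ → ℕ} (hτ : StrictMono τ)
    (hg : ∀ J, τ (J + 1) = τ J + g J + 1) (hgl : ∀ J, (lam - 1) * lam ^ J ≤ g J)
    {D : ℕ → ℕ} (hD : ∀ j, 2 ≤ D j) : dimH (AS (pt (sq τ D))) ≤ ENNReal.ofReal s := by
  have h0 : μH[s] (AS (pt (sq τ D))) = 0 := by
    refine measure_mono_null (AS_sub hτ hD) ?_
    rw [measure_union_null_iff]
    constructor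
    · have : NullSingletonClass (μH[s] : Measure ℝ) := Measure.nullSingletonClass_hausdorff ℝ hs
      exact measure_singleton 0
    · rw [measure_iUnion_null_iff]
      intro J
      apply pre_zero hs
      apply hausdorff_zero hs
      rw [← ofReal_c hs, c_zero hs hs2 hlam hsl hτ hg hgl J, ENNReal.ofReal_zero]
  have h1 : μH[((s.toNNReal : ℝ≥0) : ℝ)] (AS (pt (sq τ D))) ≠ ∞ := by
    rw [Real.coe_toNNReal _ hs.le, h0]
    exact ENNReal.zero_ne_top
  exact dimH_le_of_hausdorffMeasure_ne_top h1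

end R204.Lur
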