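import Mathlib
import Pool.Agent.R204.Lur.Upper

/-! Lower bound for the dimension of asymptotic sets of the Lüroth map. -/

namespace R204.Lur

open Set Filter Topology MeasureTheory Metric
open scoped ENNReal NNReal

theorem close {τ : ℕ → ℕ} (hτ : StrictMono τ) {D D' : ℕ → ℕ} (hD : ∀ j, 1 ≤ D j) (hD' : ∀ j, 1 ≤ D' j)
    (j : ℕ) (k : ℕ) : ∀ n, (∀ i < k, n + i ∉ range τ) → n + k = τ j →
    |Lu^[n] (pt (sq τ D)) - Lu^[n] (pt (sq τ D'))| ≤ max (1 / (D j : ℝ)) (1 / (D' j : ℝ)) := by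
  induction k with
  | zero =>
    intro n _ hn
    rw [add_zero] at hn
    subst hn
    have h1 := Lu_iter_at hτ hD j
    have h2 := Lu_iter_at hτ hD' j
    have h3 := (Lu_iter_mem (pt_mem (sq_pos hτ hD)) (τ j)).1
    have h4 := (Lu_iter_mem (pt_mem (sq_pos hτ hD')) (τ j)).1
    rw [abs_le]
    constructor
    · have := le_max_right (1 / (D j : ℝ)) (1 / (D' j : ℝ)); linarith
    · have := le_max_left (1 / (D j : ℝ)) (1 / (D' j : ℝ)); linarith
  | succ k ih =>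
    intro n hi hn
    have h0 : n ∉ range τ := by have := hi 0 (by omega); rwa [add_zero] at this
    rw [Lu_iter_off hτ hD h0, Lu_iter_off hτ hD' h0]
    have h := ih (n + 1) (fun i hik => by
      have := hi (i + 1) (by omega)
      rwa [show n + 1 + i = n + (i + 1) by omega]) (by omega)
    have e : (1 + Lu^[n + 1] (pt (sq τ D))) / 2 - (1 + Lu^[n + 1] (pt (sq τ D'))) / 2 =
      (Lu^[n + 1] (pt (sq τ D)) - Lu^[n + 1] (pt (sq τ D'))) / 2 := by ring
    rw [e, abs_div, abs_two]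
    have := abs_nonneg (Lu^[n + 1] (pt (sq τ D)) - Lu^[n + 1] (pt (sq τ D')))
    linarith

theorem mem_AS {τ : ℕ → ℕ} (hτ : StrictMono τ) {D D' : ℕ → ℕ} (hD : ∀ j, 1 ≤ D j)
    (hD' : ∀ j, 1 ≤ D' j) (hDl : Tendsto D atTop atTop) (hDl' : Tendsto D' atTop atTop) :
    pt (sq τ D') ∈ AS (pt (sq τ D)) := by
  refine ⟨⟨(pt_mem (sq_pos hτ hD')).1.le, (pt_mem (sq_pos hτ hD')).2⟩, ?_⟩
  rw [Metric.tendsto_atTop]
  intro ε hε
  have t1 : Tendsto (fun j => 1 / (D j : ℝ)) atTop (𝓝 0) :=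
    tendsto_one_div_atTop_nhds_zero_nat.comp hDl
  have t2 : Tendsto (fun j => 1 / (D' j : ℝ)) atTop (𝓝 0) :=
    tendsto_one_div_atTop_nhds_zero_nat.comp hDl'
  obtain ⟨J₁, h₁⟩ := eventually_atTop.1 (t1.eventually (gt_mem_nhds hε))
  obtain ⟨J₂, h₂⟩ := eventually_atTop.1 (t2.eventually (gt_mem_nhds hε))
  refine ⟨τ (max J₁ J₂), fun n hn => ?_⟩
  have hex : ∃ j, n ≤ τ j := ⟨n, hτ.id_le n⟩
  classical
  set j := Nat.find hex with hj
  have hj1 : n ≤ τ j := Nat.find_spec hex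
  have hj2 : ∀ m < j, ¬ n ≤ τ m := fun m hm => Nat.find_min hex hm
  have hJ : max J₁ J₂ ≤ j := by
    by_contra hcon
    have := hτ (lt_of_not_ge hcon)
    omega
  have := close hτ hD hD' j (τ j - n) n (by
    rintro i hi ⟨m, hm⟩
    have h1 : m < j := hτ.lt_iff_lt.1 (by omega)
    exact hj2 m h1 (by omega)) (by omega)
  rw [Real.dist_eq, sub_zero, abs_abs]
  exact this.trans_lt (max_lt (h₁ j ((le_max_left _ _).trans hJ)) (h₂ j ((le_max_right _ _).trans hJ)))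

theorem diff_lower {N D D' : ℕ} (hN : 1 ≤ N) (hD : N ≤ D) (hDD : D < D') (hD' : D' < 2 * N) {u u' : ℝ}
    (hu : 1 / 2 < u) (hu' : u' ≤ 1) :
    ((D' : ℝ) - D) / (8 * N ^ 2) ≤ G D u - G D' u' := by
  have hN' : (1 : ℝ) ≤ N := by exact_mod_cast hN
  have hD1 : (N : ℝ) ≤ D := by exact_mod_cast hD
  have hDD1 : (D : ℝ) + 1 ≤ D' := by exact_mod_cast hDD
  have hD'1 : (D' : ℝ) + 1 ≤ 2 * N := by exact_mod_cast hD'
  have hDpos : (0 : ℝ) < D := by linarith
  have hD'pos : (0 : ℝ) < D' := by linarith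
  have h1 : G D' u' ≤ 1 / D' := by
    unfold G
    rw [div_le_div_iff₀ (by positivity) (by positivity)]
    nlinarith
  have h2 : 1 / ((D : ℝ) + 1) + 1 / (2 * (D * (D + 1))) ≤ G D u := by
    have : G D u = 1 / ((D : ℝ) + 1) + u / (D * (D + 1)) := by
      unfold G; field_simp; ring
    rw [this]
    have : 1 / (2 * ((D : ℝ) * (D + 1))) ≤ u / (D * (D + 1)) := by
      rw [div_le_div_iff₀ (by positivity) (by positivity)]
      nlinarith [mul_pos hDpos (by positivity : (0 : ℝ) < (D : ℝ) + 1)]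
    linarith
  have h3 : ((D' : ℝ) - D - 1) / (4 * N ^ 2) ≤ 1 / ((D : ℝ) + 1) - 1 / D' := by
    have : 1 / ((D : ℝ) + 1) - 1 / D' = ((D' : ℝ) - D - 1) / (((D : ℝ) + 1) * D') := by
      field_simp; ring
    rw [this]
    apply div_le_div_of_nonneg_left (by linarith) (by positivity)
    nlinarith
  have h4 : 1 / (8 * (N : ℝ) ^ 2) ≤ 1 / (2 * (D * (D + 1))) := by
    apply one_div_le_one_div_of_le (by positivity)
    nlinarith
  have h5 : ((D' : ℝ) - D) / (8 * N ^ 2) ≤ ((D' : ℝ) - D - 1) / (4 * N ^ 2) + 1 / (8 * (N : ℝ) ^ 2) := by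
    have : ((D' : ℝ) - D - 1) / (4 * N ^ 2) + 1 / (8 * (N : ℝ) ^ 2) = (2 * ((D' : ℝ) - D) - 1) / (8 * N ^ 2) := by
      field_simp; ring
    rw [this]
    apply div_le_div_of_nonneg_right _ (by positivity)
    linarith
  linarith

theorem W_succ (d : ℕ → ℕ) (k : ℕ) : W d (k + 1) = W d k * w (d k) := by
  unfold W; rw [Finset.prod_range_succ]

theorem w_lower {N D : ℕ} {a : ℕ} (hN : N = 2 ^ a) (hD : 1 ≤ D) (hD' : D < 2 * N) :
    (1 / 2 : ℝ) ^ (2 + 2 * a) ≤ w D := by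
  have hDpos : (0 : ℝ) < D := by exact_mod_cast hD
  have hD1 : (D : ℝ) + 1 ≤ 2 * N := by exact_mod_cast hD'
  have e : (1 / 2 : ℝ) ^ (2 + 2 * a) = 1 / (4 * (N : ℝ) ^ 2) := by
    rw [hN]; push_cast
    rw [one_div_pow, pow_add, pow_mul']
    norm_num
  rw [e]
  unfold w
  apply one_div_le_one_div_of_le (by positivity)
  nlinarith

section
variable {τ g b : ℕ → ℕ} (hτ : StrictMono τ) (hg : ∀ J, τ (J + 1) = τ J + g J + 1) (hb : Monotone b)

/-- sizes of the digit windows -/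
def NN (b : ℕ → ℕ) (j : ℕ) : ℕ := 2 ^ (b (j + 1) - b j)

include hτ hg hb in
theorem W_lower {D : ℕ → ℕ} (hD1 : ∀ j, 1 ≤ D j) (hD : ∀ j, D j < 2 * NN b j) (hb0 : b 0 = 0) (j : ℕ) :
    (1 / 2 : ℝ) ^ (τ j + 2 * j + 2 * b j) ≤ W (sq τ D) (τ j) := by
  induction j with
  | zero =>
    have h0 : ∀ m ≤ τ 0, W (sq τ D) m = (1 / 2) ^ m := by
      intro m
      induction m with
      | zero => intro _; simp [W]
      | succ m ih =>
        intro hm
        have hr : m ∉ range τ := by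
          rintro ⟨k, hk⟩
          have := hτ.monotone (Nat.zero_le k)
          omega
        rw [W_succ, ih (by omega), sq_of_notMem D hr, w_one, pow_succ]
    rw [h0 _ le_rfl, hb0]
    simp
  | succ j ih =>
    have h1 : ∀ m ≤ g j, W (sq τ D) (τ j + 1 + m) = W (sq τ D) (τ j) * w (D j) * (1 / 2) ^ m := by
      intro m
      induction m with
      | zero => intro _; rw [add_zero, W_succ, sq_apply hτ]; simp
      | succ m ihm =>
        intro hm
        have hr : τ j + 1 + m ∉ range τ := by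
          rintro ⟨k, hk⟩
          have h1 : j < k := hτ.lt_iff_lt.1 (by omega)
          have h2 : k < j + 1 := hτ.lt_iff_lt.1 (by have := hg j; omega)
          omega
        rw [show τ j + 1 + (m + 1) = τ j + 1 + m + 1 by omega, W_succ, ihm (by omega),
          sq_of_notMem D hr, w_one, pow_succ]
        ring
    have e : τ (j + 1) = τ j + 1 + g j := by have := hg j; omega
    rw [e, h1 _ le_rfl]
    have hw := w_lower (a := b (j + 1) - b j) rfl (hD1 j) (hD j)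
    have hbj : b j ≤ b (j + 1) := hb (Nat.le_succ j)
    have e2 : τ j + 1 + g j + 2 * (j + 1) + 2 * b (j + 1) =
      (τ j + 2 * j + 2 * b j) + (2 + 2 * (b (j + 1) - b j)) + g j + 1 := by omega
    rw [e2, pow_succ, pow_add, pow_add _ (τ j + 2 * j + 2 * b j)]
    have hp : 0 ≤ (1 / 2 : ℝ) ^ (τ j + 2 * j + 2 * b j) := by positivity
    have hp2 : 0 ≤ (1 / 2 : ℝ) ^ (2 + 2 * (b (j + 1) - b j)) := by positivity
    calc (1 / 2 : ℝ) ^ (τ j + 2 * j + 2 * b j) * (1 / 2) ^ (2 + 2 * (b (j + 1) - b j)) * (1 / 2) ^ g j * (1 / 2)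
        ≤ (1 / 2 : ℝ) ^ (τ j + 2 * j + 2 * b j) * (1 / 2) ^ (2 + 2 * (b (j + 1) - b j)) * (1 / 2) ^ g j := by
          apply mul_le_of_le_one_right (by positivity) (by norm_num)
      _ ≤ _ := by
          apply mul_le_mul_of_nonneg_right _ (by positivity)
          exact mul_le_mul ih hw hp2 (W_nonneg (sq_pos hτ hD1) _).le

/-- floors -/
noncomputable def fl (b : ℕ → ℕ) (t : ℝ) (j : ℕ) : ℕ := ⌊t * 2 ^ b j⌋₊

/-- digits of the point with parameter `t` -/
noncomputable def Ed (b : ℕ → ℕ) (t : ℝ) (j : ℕ) : ℕ := NN b j + fl b t (j + 1) % NN b j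

theorem NN_pos (b : ℕ → ℕ) (j : ℕ) : 1 ≤ NN b j := Nat.one_le_two_pow

theorem Ed_ge (b : ℕ → ℕ) (t : ℝ) (j : ℕ) : NN b j ≤ Ed b t j := Nat.le_add_right _ _

theorem Ed_lt (b : ℕ → ℕ) (t : ℝ) (j : ℕ) : Ed b t j < 2 * NN b j := by
  have := Nat.mod_lt (fl b t (j + 1)) (NN_pos b j)
  unfold Ed; omega

include hb in
theorem fl_div (t : ℝ) (j : ℕ) : fl b t (j + 1) / NN b j = fl b t j := by
  unfold fl
  rw [← Nat.floor_div_natCast]
  congr 1
  have hbj' : b j ≤ b (j + 1) := hb (Nat.le_succ j)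
  have hbj : b (j + 1) = b j + (b (j + 1) - b j) := by omega
  unfold NN
  push_cast
  nth_rw 1 [hbj]
  rw [pow_add]
  field_simp

include hτ hg hb in
/-- the main separation estimate -/
theorem sep (hb0 : b 0 = 0) (hg1 : ∀ j, 1 ≤ g j) (hbl : Tendsto b atTop atTop) {t t' : ℝ}
    (ht : t ∈ Ico (0 : ℝ) 1) (ht' : t' ∈ Ico (0 : ℝ) 1) (hne : t ≠ t') :
    ∃ (j Δ : ℕ), 1 ≤ Δ ∧ Δ ≤ NN b j ∧ |t - t'| * 2 ^ b (j + 1) ≤ 2 * Δ ∧
      (Δ : ℝ) * (1 / 2) ^ (τ j + 2 * j + 3 + 2 * b (j + 1)) ≤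
        |pt (sq τ (Ed b t)) - pt (sq τ (Ed b t'))| := by
  have hex : ∃ j, fl b t (j + 1) ≠ fl b t' (j + 1) := by
    by_contra hcon
    push Not at hcon
    have hpos : 0 < |t - t'| := abs_pos.2 (sub_ne_zero.2 hne)
    have hl : Tendsto (fun j => |t - t'| * (2 : ℝ) ^ b (j + 1)) atTop atTop := by
      apply Tendsto.const_mul_atTop hpos
      exact (tendsto_pow_atTop_atTop_of_one_lt (by norm_num : (1 : ℝ) < 2)).comp
        (hbl.comp (tendsto_add_atTop_nat 1))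
    obtain ⟨j, hj⟩ := (hl.eventually (eventually_ge_atTop 1)).exists
    have h1 := hcon j
    unfold fl at h1
    have p : (0 : ℝ) < 2 ^ b (j + 1) := by positivity
    have f1 := Nat.floor_le (mul_nonneg ht.1 p.le)
    have f2 := Nat.lt_floor_add_one (t * 2 ^ b (j + 1))
    have f3 := Nat.floor_le (mul_nonneg ht'.1 p.le)
    have f4 := Nat.lt_floor_add_one (t' * 2 ^ b (j + 1))
    rw [← h1] at f3 f4
    have : |t - t'| * 2 ^ b (j + 1) < 1 := by
      rw [← abs_of_pos p, ← abs_mul, abs_lt]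
      constructor <;> rw [sub_mul] <;> linarith
    linarith
  obtain ⟨j, hj1, hj2⟩ : ∃ j, fl b t (j + 1) ≠ fl b t' (j + 1) ∧ ∀ i ≤ j, fl b t i = fl b t' i := by
    classical
    refine ⟨Nat.find hex, Nat.find_spec hex, ?_⟩
    intro i hi
    rcases i with _ | i
    · unfold fl
      rw [hb0]
      simp only [pow_zero, mul_one]
      rw [Nat.floor_eq_zero.2 ht.2, Nat.floor_eq_zero.2 ht'.2]
    · have := Nat.find_min hex (m := i) (by omega)
      push Not at this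
      exact this
  clear hex
  -- WLOG
  wlog hlt : fl b t (j + 1) < fl b t' (j + 1) generalizing t t'
  · obtain ⟨j', Δ, h1, h2, h3, h4⟩ := this ht' ht hne.symm hj1.symm
      (fun i hi => (hj2 i hi).symm) (lt_of_le_of_ne (not_lt.1 hlt) hj1.symm)
    exact ⟨j', Δ, h1, h2, by rwa [abs_sub_comm] at h3, by rwa [abs_sub_comm] at h4⟩
  set a := fl b t (j + 1) with ha
  set a' := fl b t' (j + 1) with ha'
  have hq : a / NN b j = a' / NN b j := by
    rw [ha, ha', fl_div hb, fl_div hb, hj2 j le_rfl]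
  have m1 := Nat.div_add_mod a (NN b j)
  have m2 := Nat.div_add_mod a' (NN b j)
  rw [← hq] at m2
  have l1 := Nat.mod_lt a (NN_pos b j)
  have l2 := Nat.mod_lt a' (NN_pos b j)
  have hEd : Ed b t j < Ed b t' j := by
    show NN b j + a % NN b j < NN b j + a' % NN b j
    omega
  have hΔ : Ed b t' j - Ed b t j = a' - a := by
    show (NN b j + a' % NN b j) - (NN b j + a % NN b j) = a' - a
    omega
  have hΔr : ((a' - a : ℕ) : ℝ) = (Ed b t' j : ℝ) - Ed b t j := by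
    rw [← hΔ, Nat.cast_sub hEd.le]
  refine ⟨j, a' - a, by omega, ?_, ?_, ?_⟩
  · rw [← hΔ]
    show (NN b j + a' % NN b j) - (NN b j + a % NN b j) ≤ NN b j
    omega
  · have p : (0 : ℝ) < 2 ^ b (j + 1) := by positivity
    have f1 := Nat.floor_le (mul_nonneg ht.1 p.le)
    have f2 := Nat.lt_floor_add_one (t * 2 ^ b (j + 1))
    have f3 := Nat.floor_le (mul_nonneg ht'.1 p.le)
    have f4 := Nat.lt_floor_add_one (t' * 2 ^ b (j + 1))
    have g1 : (a : ℝ) ≤ t * 2 ^ b (j + 1) := f1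
    have g2 : t * 2 ^ b (j + 1) < a + 1 := f2
    have g3 : (a' : ℝ) ≤ t' * 2 ^ b (j + 1) := f3
    have g4 : t' * 2 ^ b (j + 1) < a' + 1 := f4
    have h5 : (1 : ℝ) ≤ (a' : ℝ) - a := by
      have : (a : ℝ) + 1 ≤ a' := by exact_mod_cast hlt
      linarith
    rw [Nat.cast_sub hlt.le]
    rw [← abs_of_pos p, ← abs_mul, abs_le]
    constructor <;> rw [sub_mul] <;> linarith
  · have hE1 : ∀ i, 1 ≤ Ed b t i := fun i => (NN_pos b i).trans (Ed_ge b t i)
    have hE2 : ∀ i, 1 ≤ Ed b t' i := fun i => (NN_pos b i).trans (Ed_ge b t' i)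
    have hagree : ∀ i < τ j, sq τ (Ed b t) i = sq τ (Ed b t') i := by
      intro i hi
      by_cases hr : i ∈ range τ
      · obtain ⟨m, rfl⟩ := hr
        have hm : m < j := hτ.lt_iff_lt.1 hi
        rw [sq_apply hτ, sq_apply hτ]
        unfold Ed
        rw [hj2 (m + 1) (by omega)]
      · rw [sq_of_notMem _ hr, sq_of_notMem _ hr]
    rw [pt_sub (sq_pos hτ hE1) (sq_pos hτ hE2) (τ j) hagree, abs_mul,
      abs_of_pos (W_nonneg (sq_pos hτ hE1) _)]
    have hW := W_lower hτ hg hb hE1 (Ed_lt b t) hb0 j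
    -- the difference at level j
    have hr : τ j + 1 ∉ range τ := by
      rintro ⟨k, hk⟩
      have h1 : j < k := hτ.lt_iff_lt.1 (by omega)
      have h2 : k < j + 1 := hτ.lt_iff_lt.1 (by have := hg j; have := hg1 j; omega)
      omega
    have hdiff : (((a' - a : ℕ) : ℝ)) / (8 * (NN b j : ℝ) ^ 2) ≤
        (pt fun i => sq τ (Ed b t) (i + τ j)) - pt fun i => sq τ (Ed b t') (i + τ j) := by
      rw [pt_rec (d := fun i => sq τ (Ed b t) (i + τ j)) (fun i => sq_pos hτ hE1 _),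
        pt_rec (d := fun i => sq τ (Ed b t') (i + τ j)) (fun i => sq_pos hτ hE2 _)]
      simp only [zero_add, sq_apply hτ]
      rw [hΔr]
      apply diff_lower (NN_pos b j) (Ed_ge b t j) hEd (Ed_lt b t' j)
      · rw [pt_rec (fun i => sq_pos hτ hE1 _)]
        have e : sq τ (Ed b t) (0 + 1 + τ j) = 1 := by
          rw [show 0 + 1 + τ j = τ j + 1 by omega]
          exact sq_of_notMem _ hr
        simp only [e]
        have h3 := (pt_mem (d := fun i => sq τ (Ed b t) (i + 1 + 1 + τ j)) fun i => sq_pos hτ hE1 _).1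
        unfold G
        norm_num
        linarith
      · exact (pt_mem fun i => sq_pos hτ hE2 _).2
    have hN2 : 1 / (8 * (NN b j : ℝ) ^ 2) = (1 / 2 : ℝ) ^ (3 + 2 * (b (j + 1) - b j)) := by
      unfold NN
      push_cast
      rw [one_div_pow, pow_add, pow_mul']
      norm_num
    have hbj : b j ≤ b (j + 1) := hb (Nat.le_succ j)
    have e3 : τ j + 2 * j + 3 + 2 * b (j + 1) =
      (τ j + 2 * j + 2 * b j) + (3 + 2 * (b (j + 1) - b j)) := by omega
    calc ((a' - a : ℕ) : ℝ) * (1 / 2) ^ (τ j + 2 * j + 3 + 2 * b (j + 1))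
        = (1 / 2) ^ (τ j + 2 * j + 2 * b j) * (((a' - a : ℕ) : ℝ) * (1 / (8 * (NN b j : ℝ) ^ 2))) := by
          rw [e3, pow_add, hN2]; ring
      _ ≤ W (sq τ (Ed b t)) (τ j) * (((a' - a : ℕ) : ℝ) / (8 * (NN b j : ℝ) ^ 2)) := by
          rw [mul_one_div]
          exact mul_le_mul_of_nonneg_right hW (by positivity)
      _ ≤ _ := by
          apply mul_le_mul_of_nonneg_left _ (W_nonneg (sq_pos hτ hE1) _).le
          exact hdiff.trans (le_abs_self _)

include hτ hg hb in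
theorem lower {s : ℝ} (hs : 0 < s) (hs1 : s < 1) (hb0 : b 0 = 0) (hg1 : ∀ j, 1 ≤ g j)
    (hbl : Tendsto b atTop atTop) (hbl2 : Tendsto (fun j => b (j + 1) - b j) atTop atTop)
    {cst : ℝ} (hc : ∀ j : ℕ, 1 + s * (τ j + 2 * j + 3) + s * b (j + 1) - (1 - s) * b j ≤ cst)
    {D : ℕ → ℕ} (hD : ∀ j, 1 ≤ D j) (hDl : Tendsto D atTop atTop) :
    ENNReal.ofReal s ≤ dimH (AS (pt (sq τ D))) := by
  set Φ : ℝ → ℝ := fun t => pt (sq τ (Ed b t)) with hΦ
  have hNl : Tendsto (NN b) atTop atTop :=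
    (tendsto_pow_atTop_atTop_of_one_lt (by norm_num : 1 < 2)).comp hbl2
  have hsub : Φ '' Ico 0 1 ⊆ AS (pt (sq τ D)) := by
    rintro _ ⟨t, ht, rfl⟩
    refine mem_AS hτ hD (fun i => (NN_pos b i).trans (Ed_ge b t i)) hDl ?_
    exact tendsto_atTop_mono (Ed_ge b t) hNl
  have key : ∀ t ∈ Ico (0 : ℝ) 1, ∀ t' ∈ Ico (0 : ℝ) 1, |t - t'| ≤ 2 ^ cst * |Φ t - Φ t'| ^ s := by
    intro t ht t' ht'
    rcases eq_or_ne t t' with rfl | hne
    · rw [sub_self, abs_zero]; positivity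
    obtain ⟨j, Δ, h1, h2, h3, h4⟩ := sep hτ hg hb hb0 hg1 hbl ht ht' hne
    have hΔ : (1 : ℝ) ≤ Δ := by exact_mod_cast h1
    have hΔ0 : (0 : ℝ) < Δ := by linarith
    have hbj : b j ≤ b (j + 1) := hb (Nat.le_succ j)
    have h2' : (Δ : ℝ) ≤ (2 : ℝ) ^ ((b (j + 1) : ℝ) - b j) := by
      have : (Δ : ℝ) ≤ NN b j := by exact_mod_cast h2
      refine this.trans (le_of_eq ?_)
      unfold NN
      rw [← Nat.cast_sub hbj, Real.rpow_natCast]
      push_cast
      rfl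
    set X : ℝ := (τ j : ℝ) + 2 * j + 3 + 2 * b (j + 1) with hX
    have h4' : (Δ : ℝ) * (2 : ℝ) ^ (-X) ≤ |Φ t - Φ t'| := by
      refine le_trans (le_of_eq ?_) h4
      congr 1
      rw [Real.rpow_neg (by norm_num), one_div_pow, one_div, hX]
      congr 1
      rw [← Real.rpow_natCast]
      push_cast
      rfl
    have h5 : (Δ : ℝ) ^ s * (2 : ℝ) ^ (-(s * X)) ≤ |Φ t - Φ t'| ^ s := by
      calc (Δ : ℝ) ^ s * (2 : ℝ) ^ (-(s * X)) = ((Δ : ℝ) * (2 : ℝ) ^ (-X)) ^ s := by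
            rw [Real.mul_rpow hΔ0.le (by positivity), ← Real.rpow_mul (by norm_num)]
            congr 2
            ring
        _ ≤ _ := Real.rpow_le_rpow (by positivity) h4' hs.le
    have h6 : |t - t'| ≤ 2 * Δ * (2 : ℝ) ^ (-(b (j + 1) : ℝ)) := by
      rw [Real.rpow_neg (by norm_num), ← div_eq_mul_inv, le_div_iff₀ (by positivity), Real.rpow_natCast]
      exact h3
    have h7 : (Δ : ℝ) = (Δ : ℝ) ^ s * (Δ : ℝ) ^ (1 - s) := by
      rw [← Real.rpow_add hΔ0]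
      rw [show s + (1 - s) = 1 by ring, Real.rpow_one]
    have h8 : (Δ : ℝ) ^ (1 - s) ≤ (2 : ℝ) ^ (((b (j + 1) : ℝ) - b j) * (1 - s)) := by
      rw [Real.rpow_mul (by norm_num)]
      exact Real.rpow_le_rpow hΔ0.le h2' (by linarith)
    calc |t - t'| ≤ 2 * Δ * (2 : ℝ) ^ (-(b (j + 1) : ℝ)) := h6
      _ = (Δ : ℝ) ^ s * (2 * (Δ : ℝ) ^ (1 - s) * (2 : ℝ) ^ (-(b (j + 1) : ℝ))) := by
          nth_rw 1 [h7]; ring
      _ ≤ (Δ : ℝ) ^ s * (2 * (2 : ℝ) ^ (((b (j + 1) : ℝ) - b j) * (1 - s)) *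
            (2 : ℝ) ^ (-(b (j + 1) : ℝ))) := by
          gcongr
      _ = (Δ : ℝ) ^ s * (2 : ℝ) ^ (1 + ((b (j + 1) : ℝ) - b j) * (1 - s) + -(b (j + 1) : ℝ)) := by
          rw [Real.rpow_add (by norm_num), Real.rpow_add (by norm_num), Real.rpow_one]
      _ ≤ (Δ : ℝ) ^ s * (2 : ℝ) ^ (cst + -(s * X)) := by
          apply mul_le_mul_of_nonneg_left _ (by positivity)
          apply Real.rpow_le_rpow_of_exponent_le (by norm_num)
          have := hc j
          rw [hX]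
          nlinarith
      _ = 2 ^ cst * ((Δ : ℝ) ^ s * (2 : ℝ) ^ (-(s * X))) := by
          rw [Real.rpow_add (by norm_num)]; ring
      _ ≤ 2 ^ cst * |Φ t - Φ t'| ^ s := by gcongr
  have hinj : InjOn Φ (Ico 0 1) := by
    intro t ht t' ht' he
    have := key t ht t' ht'
    rw [he, sub_self, abs_zero, Real.zero_rpow hs.ne', mul_zero] at this
    exact sub_eq_zero.1 (abs_nonpos_iff.1 this)
  set f := Function.invFunOn Φ (Ico 0 1) with hf
  have hfΦ : ∀ t ∈ Ico (0 : ℝ) 1, f (Φ t) = t := fun t ht => hinj.leftInvOn_invFunOn ht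
  have hhol : HolderOnWith ((2 : ℝ) ^ cst).toNNReal s.toNNReal f (Φ '' Ico 0 1) := by
    rintro _ ⟨t, ht, rfl⟩ _ ⟨t', ht', rfl⟩
    rw [hfΦ t ht, hfΦ t' ht', edist_dist, edist_dist, Real.dist_eq, Real.dist_eq,
      Real.coe_toNNReal _ hs.le]
    rw [ENNReal.ofReal_rpow_of_nonneg (abs_nonneg _) hs.le]
    show _ ≤ ENNReal.ofReal _ * _
    rw [← ENNReal.ofReal_mul (by positivity)]
    exact ENNReal.ofReal_le_ofReal (key t ht t' ht')
  have hdim := hhol.dimH_image_le (Real.toNNReal_pos.2 hs)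
  have himg : f '' (Φ '' Ico 0 1) = Ico 0 1 := by
    rw [image_image]
    ext t
    constructor
    · rintro ⟨t', ht', rfl⟩
      show f (Φ t') ∈ _
      rw [hfΦ t' ht']; exact ht'
    · intro ht
      exact ⟨t, ht, hfΦ t ht⟩
  rw [himg, Real.dimH_of_nonempty_interior (by rw [interior_Ico]; exact ⟨1 / 2, by norm_num, by norm_num⟩)] at hdim
  simp only [Module.finrank_self, Nat.cast_one] at hdim
  have h9 : ENNReal.ofReal s ≤ dimH (Φ '' Ico 0 1) := by
    have hne : ((s.toNNReal : ℝ≥0) : ℝ≥0∞) ≠ 0 := by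
      simpa using hs
    rw [ENNReal.le_div_iff_mul_le (Or.inl hne) (Or.inl ENNReal.coe_ne_top), one_mul] at hdim
    exact hdim
  exact h9.trans (dimH_mono hsub)

end

end R204.Lur
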